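import Pool.Agent.H620R2.GaugeR.Defs

/-!
# Pseudorandom generators with logarithmic seed, relative to an oracle

(Continues `Pool.Agent.H620R2.Gauge.Defs`.)
-/

namespace Pool.Agent.H752.PG

open Pool.Agent.NPC Pool.Agent.H620R2.Gauge

/-- A gate of a circuit with oracle gates. A wire is given by its number and by a bit which is
`true` if the wire is negated (negations are free). -/
inductive Gate : Type
  | and (u v : ℕ × Bool)
  | or (u v : ℕ × Bool)
  | orc (l : List (ℕ × Bool))

/-- The value of a wire; wires which do not exist have the value `false` (`true` if negated). -/
def rd (ws : List Bool) (u : ℕ × Bool) : Bool := (ws.getD u.1 false).xor u.2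

/-- The value of a gate, `ws` being the values of the wires so far. -/
def Gate.val (A : Oracle) (ws : List Bool) : Gate → Bool
  | .and u v => rd ws u && rd ws v
  | .or u v => rd ws u || rd ws v
  | .orc l => A (l.map (rd ws))

/-- The size of a gate. The size of an oracle gate is its number of inputs plus one. -/
def Gate.size : Gate → ℕ
  | .and _ _ => 1
  | .or _ _ => 1
  | .orc l => l.length + 1

/-- A circuit with oracle gates: the first wires are the inputs, then every gate adds a wire;
`out` is the output wire. -/
structure Circuit : Type where
  /-- the gates -/
  gates : List Gate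
  /-- the output wire -/
  out : ℕ × Bool

/-- The values of all the wires on the input `x`. -/
def Circuit.wires (C : Circuit) (A : Oracle) (x : List Bool) : List Bool :=
  C.gates.foldl (fun ws g => ws ++ [g.val A ws]) x

/-- The value of the circuit on the input `x`. -/
def Circuit.eval (C : Circuit) (A : Oracle) (x : List Bool) : Bool := rd (C.wires A x) C.out

/-- The size of a circuit. -/
def Circuit.size (C : Circuit) : ℕ := (C.gates.map Gate.size).sum

/-- The probability that the circuit accepts a uniformly random string of length `m`. -/
noncomputable def accU (C : Circuit) (A : Oracle) (m : ℕ) : ℝ :=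
  (Nat.card {x : Fin m → Bool // C.eval A (List.ofFn x) = true} : ℝ) / 2 ^ m

/-- The probability that the circuit accepts `G ⟨1^m, s⟩` for a uniformly random seed `s` of length
`d`. -/
noncomputable def accG (C : Circuit) (A : Oracle) (G : List Bool → List Bool) (m d : ℕ) : ℝ :=
  (Nat.card {s : Fin d → Bool //
    C.eval A (G (pairBits (List.replicate m true) (List.ofFn s))) = true} : ℝ) / 2 ^ d

/-- `d` and `G` are, from some `m` on, a generator with seed length `d m ≤ c log m`, `d m < m`,
against circuits of size at most `m` with oracle gates for `A`. -/
def Good (A : Oracle) (d : ℕ → ℕ) (G : List Bool → List Bool) (c m : ℕ) : Prop :=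
  (d m : ℝ) ≤ c * Real.logb 2 m ∧ d m < m ∧
    ∀ C : Circuit, C.size ≤ m → |accG C A G m (d m) - accU C A m| ≤ 1 / 8

/-- There is a generator with logarithmic seed length relative to `A`: the seed length `d m` and
the map `G` from the seeds of length `d m` to the strings of length `m` are computable in time
polynomial in `m` relative to `A`. -/
def LogGen (A : Oracle) : Prop :=
  ∃ (d : ℕ → ℕ) (G : List Bool → List Bool) (c : ℕ),
    IsFP A (fun x => List.replicate (d x.length) true) ∧ IsFP A G ∧
    (∀ m (s : List Bool), s.length = d m →
      (G (pairBits (List.replicate m true) s)).length = m) ∧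
    ∀ᶠ m in Filter.atTop, Good A d G c m

end Pool.Agent.H752.PG
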