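import Pool.Agent.H752.PG.Defs
import Pool.Agent.H620R2.GaugeR.Base
import Pool.Agent.H620R2.Gauge.M

/-!
# Statements of the tasks (project PG)
-/

namespace Pool.Agent.H752.PG

open Pool.Agent.NPC Pool.Agent.H620R2.Gauge Finset H568R2 MeasureTheory

/-- P1: there are few circuits of size at most `m`, up to equivalence. -/
def St_count : Prop := ∀ m : ℕ, ∃ K : Finset Circuit, (∀ C ∈ K, C.size ≤ m) ∧
    K.card ≤ 2 ^ (40 * (m + 1) ^ 2) ∧
    ∀ C : Circuit, C.size ≤ m → ∃ C' ∈ K, ∀ (A : Oracle) (x : List Bool), x.length = m →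
      C'.eval A x = C.eval A x

/-- P2: a circuit of size at most `m` asks only strings of length at most `m`. -/
def St_short : Prop := ∀ (C : Circuit) (m : ℕ), C.size ≤ m → ∀ A A' : Oracle,
    (∀ y : List Bool, y.length ≤ m → A' y = A y) → ∀ x, C.eval A' x = C.eval A x

/-- P3: Hoeffding's inequality (with a weaker constant). -/
def St_chern : Prop := ∀ (I : Type) (_ : Fintype I) (_ : DecidableEq I) (m d : ℕ)
    (pos : (Fin d → Bool) → Fin m → I) (F : (I → Bool) → (Fin m → Bool) → Bool),
    Function.Injective (fun q : (Fin d → Bool) × Fin m => pos q.1 q.2) →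
    (∀ a a' : I → Bool, (∀ e, (∀ s i, pos s i ≠ e) → a e = a' e) → F a = F a') →
    ∀ E : (I → Bool) → Prop, (∀ a, E a → (1 : ℝ) / 8 <
      |(Nat.card {s : Fin d → Bool // F a (fun i => a (pos s i)) = true} : ℝ) / 2 ^ d -
        (Nat.card {x : Fin m → Bool // F a x = true} : ℝ) / 2 ^ m|) →
    open Classical in
    Ex unif (fun a : I → Bool => if E a then (1 : ℝ) else 0) ≤ 2 * Real.exp (-(2 ^ d) / 128)

/-- the seed of the fixed generator has this length -/
def dd (c m : ℕ) : ℕ := c * (Nat.log 2 m + 1)

/-- the question for the bit number `i` of the output for the seed `s` -/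
def gq (m : ℕ) (s : List Bool) (i : ℕ) : List Bool :=
  List.replicate (m + 1) true ++ false :: pairBits s (List.replicate i true)

/-- the fixed generator, on the input `⟨1^m, s⟩` -/
def gen (A : Oracle) (z : List Bool) : List Bool :=
  (List.range (unpair z).1.length).map fun i => A (gq (unpair z).1.length (unpair z).2 i)

/-- P4: the fixed generator is computable. -/
def St_gen : Prop := ∀ (A : Oracle) (c : ℕ),
    IsFP A (fun x => List.replicate (dd c x.length) true) ∧ IsFP A (gen A) ∧
    (∀ m (s : List Bool), (gen A (pairBits (List.replicate m true) s)).length = m) ∧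
    ∀ᶠ m : ℕ in Filter.atTop, (dd c m : ℝ) ≤ (2 * c : ℕ) * Real.logb 2 m ∧ dd c m < m

/-- P5: the fixed generator works for all oracles off a small set (from P1 - P4). -/
def St_nullG : Prop := ∀ f : ℕ → ℝ, Cond1 f → Null f {A : Oracle | ¬ LogGen A}

/-- the block of `x` -/
def blkG (x : List Bool) : Set (List Bool) :=
  {y | ∃ v : List Bool, v.length = kk x + 1 ∧ y = pairBits x v}

/-- the output length at which the requirement for `x` acts -/
def mm (x : List Bool) : ℕ := 2 * x.length + kk x + 10

/-- the requirement: the generator computed by `Md`, `MG` with the constant `c` fails at `mm x` -/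
def ReqG (Md MG : Alg) (c : ℕ) (A : Oracle) (x : List Bool) : Prop :=
  ∀ (d : ℕ → ℕ) (G : List Bool → List Bool),
    Md.out A (List.replicate (mm x) true) = some (List.replicate (d (mm x)) true) →
    (∀ s : List Bool, s.length = d (mm x) →
      MG.out A (pairBits (List.replicate (mm x) true) s) =
        some (G (pairBits (List.replicate (mm x) true) s)) ∧
      (G (pairBits (List.replicate (mm x) true) s)).length = mm x) → ¬ Good A d G c (mm x)

/-- P6: a generator can be spoiled. -/
def St_gmod : Prop := ∀ (Md MG : Alg) (c : ℕ), ∃ P Q : Polynomial ℕ, ∀ x : List Bool,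
    (2 * P.eval x.length ≤ 2 ^ kk x →
      ∀ A : Oracle, ∃ A' : Oracle, (∀ y ∉ blkG x, A' y = A y) ∧ ReqG Md MG c A' x) ∧
    ∀ A A' : Oracle, (∀ y : List Bool, y.length ≤ Q.eval x.length → A' y = A y) →
      ReqG Md MG c A x → ReqG Md MG c A' x

/-- P7: many oracles without generators (from P6). -/
def St_nonnullG : Prop := ∀ f : ℕ → ℝ, ¬ Cond1 f → ¬ Null f {A : Oracle | ¬ LogGen A}

end Pool.Agent.H752.PG
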